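import Mathlib

set_option autoImplicit false

namespace Pool.Agent.H117R3.Baton

open Finset

/-- the integer l1 ball of radius R -/
noncomputable def ball (n R : ℕ) : Finset (Fin n → ℤ) :=
  (Fintype.piFinset fun _ => Finset.Icc (-(R:ℤ)) R).filter (fun z => ∑ i, |z i| ≤ R)

lemma mem_ball {n R : ℕ} {z : Fin n → ℤ} : z ∈ ball n R ↔ ∑ i, |z i| ≤ (R:ℤ) := by
  unfold ball
  rw [Finset.mem_filter]
  constructor
  · exact fun h => h.2
  · intro h
    refine ⟨?_, h⟩
    rw [Fintype.mem_piFinset]
    intro i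
    rw [Finset.mem_Icc]
    have h1 : |z i| ≤ ∑ j, |z j| :=
      Finset.single_le_sum (f := fun j => |z j|) (fun j _ => abs_nonneg _) (Finset.mem_univ i)
    have := abs_le.mp (h1.trans h)
    exact this

lemma ball_mono {n R S : ℕ} (h : R ≤ S) : ball n R ⊆ ball n S := by
  intro z hz
  rw [mem_ball] at *
  refine hz.trans ?_
  exact_mod_cast h

lemma card_ball_le_pow (n R : ℕ) : (ball n R).card ≤ (2 * R + 1) ^ n := by
  unfold ball
  refine (Finset.card_filter_le _ _).trans ?_
  rw [Fintype.card_piFinset]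
  simp only [Int.card_Icc, Finset.prod_const, Finset.card_univ, Fintype.card_fin]
  apply le_of_eq
  congr 1
  omega

lemma card_ball_le (n R : ℕ) : (ball n R).card ≤ 2 ^ n * (n + R).choose n := by
  classical
  have h1 : ((univ : Finset (Fin n → Bool)) ×ˢ
      ((univ : Finset (Fin (n+1))).finsuppAntidiag R)).card = 2 ^ n * (n + R).choose n := by
    rw [Finset.card_product, Finset.card_finsuppAntidiag_nat_eq_choose]
    simp only [Finset.card_univ, Fintype.card_pi, Fintype.card_bool, Finset.prod_const,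
      Fintype.card_fin]
    congr 1
    have : n + 1 + R - 1 = n + R := by omega
    rw [this]
    exact (Nat.choose_symm_add).symm
  rw [← h1]
  let F : (Fin n → ℤ) → (Fin n → Bool) × (Fin (n+1) →₀ ℕ) := fun z =>
    (fun i => decide (0 ≤ z i),
      Finsupp.equivFunOnFinite.symm
        (Fin.snoc (α := fun _ => ℕ) (fun i => (z i).natAbs) (R - ∑ i, (z i).natAbs)))
  apply Finset.card_le_card_of_injOn F
  · intro z hz
    rw [Finset.mem_coe, mem_ball] at hz
    rw [Finset.mem_coe, Finset.mem_product]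
    refine ⟨Finset.mem_univ _, ?_⟩
    rw [Finset.mem_finsuppAntidiag]
    refine ⟨?_, Finset.subset_univ _⟩
    have h2 : ∑ i, (z i).natAbs ≤ R := by
      have : ((∑ i, (z i).natAbs : ℕ) : ℤ) ≤ R := by
        push_cast
        simpa using hz
      exact_mod_cast this
    change ∑ i : Fin (n+1), (Fin.snoc (α := fun _ => ℕ) (fun i => (z i).natAbs) (R - ∑ i, (z i).natAbs)) i = R
    rw [Fin.sum_univ_castSucc]
    simp only [Fin.snoc_castSucc, Fin.snoc_last]
    omega
  · intro z hz w hw h
    have hs : (fun i => decide (0 ≤ z i)) = (fun i => decide (0 ≤ w i)) := congrArg Prod.fst h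
    have hp : (Fin.snoc (α := fun _ => ℕ) (fun i => (z i).natAbs) (R - ∑ i, (z i).natAbs)) =
        (Fin.snoc (α := fun _ => ℕ) (fun i => (w i).natAbs) (R - ∑ i, (w i).natAbs)) := by
      have := congrArg Prod.snd h
      exact Finsupp.equivFunOnFinite.symm.injective this
    funext i
    have h1 := congrFun hs i
    have h2 := congrFun hp (Fin.castSucc i)
    simp only [Fin.snoc_castSucc] at h2
    have h3 : (0 ≤ z i) ↔ (0 ≤ w i) := by
      simpa using h1
    omega

lemma le_card_ball (n s : ℕ) : 2 ^ n * (n + s).choose n ≤ (ball n (s + n)).card := by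
  classical
  have h1 : ((univ : Finset (Fin n → Bool)) ×ˢ
      ((univ : Finset (Fin (n+1))).finsuppAntidiag s)).card = 2 ^ n * (n + s).choose n := by
    rw [Finset.card_product, Finset.card_finsuppAntidiag_nat_eq_choose]
    simp only [Finset.card_univ, Fintype.card_pi, Fintype.card_bool, Finset.prod_const,
      Fintype.card_fin]
    congr 1
    have : n + 1 + s - 1 = n + s := by omega
    rw [this]
    exact (Nat.choose_symm_add).symm
  rw [← h1]
  let F : (Fin n → Bool) × (Fin (n+1) →₀ ℕ) → (Fin n → ℤ) := fun p i =>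
    if p.1 i then ((p.2 (Fin.castSucc i) : ℤ) + 1) else -((p.2 (Fin.castSucc i) : ℤ) + 1)
  have habs : ∀ p i, |F p i| = (p.2 (Fin.castSucc i) : ℤ) + 1 := by
    intro p i
    change |if p.1 i then ((p.2 (Fin.castSucc i) : ℤ) + 1) else -((p.2 (Fin.castSucc i) : ℤ) + 1)| = _
    split_ifs
    · rw [abs_of_nonneg (by positivity)]
    · rw [abs_neg, abs_of_nonneg (by positivity)]
  apply Finset.card_le_card_of_injOn F
  · intro p hp
    rw [Finset.mem_coe, Finset.mem_product, Finset.mem_finsuppAntidiag] at hp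
    rw [Finset.mem_coe, mem_ball]
    have h2 := hp.2.1
    rw [Fin.sum_univ_castSucc] at h2
    calc ∑ i, |F p i| = ∑ i : Fin n, ((p.2 (Fin.castSucc i) : ℤ) + 1) :=
          Finset.sum_congr rfl (fun i _ => habs p i)
      _ = ((∑ i : Fin n, p.2 (Fin.castSucc i) : ℕ) : ℤ) + n := by
          rw [Finset.sum_add_distrib]
          push_cast
          simp
      _ ≤ ((s + n : ℕ) : ℤ) := by
          push_cast [← h2]
          have : (0:ℤ) ≤ (p.2 (Fin.last n) : ℤ) := by positivity
          linarith
  · intro p hp q hq h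
    rw [Finset.mem_coe, Finset.mem_product, Finset.mem_finsuppAntidiag] at hp hq
    have h2 : ∀ i : Fin n, p.2 (Fin.castSucc i) = q.2 (Fin.castSucc i) := by
      intro i
      have := habs p i
      rw [h, habs q i] at this
      omega
    have h3 : p.1 = q.1 := by
      funext i
      have h4 := congrFun h i
      change (if p.1 i then ((p.2 (Fin.castSucc i) : ℤ) + 1) else -((p.2 (Fin.castSucc i) : ℤ) + 1)) =
        (if q.1 i then ((q.2 (Fin.castSucc i) : ℤ) + 1) else -((q.2 (Fin.castSucc i) : ℤ) + 1)) at h4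
      cases hpi : p.1 i <;> cases hqi : q.1 i <;> simp [hpi, hqi] at h4 ⊢ <;> omega
    have h5 : p.2 = q.2 := by
      ext i
      refine Fin.lastCases ?_ (fun i => h2 i) i
      have e1 := hp.2.1
      have e2 := hq.2.1
      rw [Fin.sum_univ_castSucc] at e1 e2
      rw [Finset.sum_congr rfl (fun i _ => h2 i)] at e1
      omega
    exact Prod.ext h3 h5

lemma choose_ratio (n s r : ℕ) (h : s ≤ r) :
    (s + 1) ^ n * (n + r).choose n ≤ (r + 1) ^ n * (n + s).choose n := by
  induction n with
  | zero => simp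
  | succ n ih =>
    have key : ∀ t : ℕ, (n + 1) * (n + 1 + t).choose (n + 1) = (n + 1 + t) * (n + t).choose n := by
      intro t
      have := Nat.add_one_mul_choose_eq (n + t) n
      have e : n + 1 + t = n + t + 1 := by ring
      rw [e, this, Nat.mul_comm]
    have hpos : 0 < n + 1 := Nat.succ_pos n
    apply Nat.le_of_mul_le_mul_left _ hpos
    calc (n + 1) * ((s + 1) ^ (n + 1) * (n + 1 + r).choose (n + 1))
        = (s + 1) ^ (n + 1) * ((n + 1) * (n + 1 + r).choose (n + 1)) := by ring
      _ = (s + 1) ^ (n + 1) * ((n + 1 + r) * (n + r).choose n) := by rw [key]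
      _ = ((s + 1) * (n + 1 + r)) * ((s + 1) ^ n * (n + r).choose n) := by ring
      _ ≤ ((r + 1) * (n + 1 + s)) * ((r + 1) ^ n * (n + s).choose n) := by
          apply Nat.mul_le_mul _ ih
          nlinarith
      _ = (r + 1) ^ (n + 1) * ((n + 1 + s) * (n + s).choose n) := by ring
      _ = (r + 1) ^ (n + 1) * ((n + 1) * (n + 1 + s).choose (n + 1)) := by rw [key]
      _ = (n + 1) * ((r + 1) ^ (n + 1) * (n + 1 + s).choose (n + 1)) := by ring

/-- growth of l1 balls -/
lemma ball_ratio (n b : ℕ) :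
    b ^ n * (ball n (n * (b + 3))).card ≤ (b + 3) ^ n * (ball n (n * (b + 1))).card := by
  have h1 := card_ball_le n (n * (b + 3))
  have h2 := le_card_ball n (n * b)
  have e : n * b + n = n * (b + 1) := by ring
  rw [e] at h2
  have h3 := choose_ratio n (n * b) (n * (b + 3)) (Nat.mul_le_mul_left _ (by omega))
  have h4 : b * (n * (b + 3) + 1) ≤ (b + 3) * (n * b + 1) := by nlinarith
  have h5 : b ^ n * (n * (b + 3) + 1) ^ n ≤ (b + 3) ^ n * (n * b + 1) ^ n := by
    rw [← mul_pow, ← mul_pow]
    exact Nat.pow_le_pow_left h4 n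
  have hpos : 0 < (n * b + 1) ^ n := by positivity
  apply Nat.le_of_mul_le_mul_left _ hpos
  calc (n * b + 1) ^ n * (b ^ n * (ball n (n * (b + 3))).card)
      ≤ (n * b + 1) ^ n * (b ^ n * (2 ^ n * (n + n * (b + 3)).choose n)) := by gcongr
    _ = b ^ n * 2 ^ n * ((n * b + 1) ^ n * (n + n * (b + 3)).choose n) := by ring
    _ ≤ b ^ n * 2 ^ n * ((n * (b + 3) + 1) ^ n * (n + n * b).choose n) := by gcongr
    _ = (b ^ n * (n * (b + 3) + 1) ^ n) * (2 ^ n * (n + n * b).choose n) := by ring
    _ ≤ ((b + 3) ^ n * (n * b + 1) ^ n) * (ball n (n * (b + 1))).card := by gcongr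
    _ = (n * b + 1) ^ n * ((b + 3) ^ n * (ball n (n * (b + 1))).card) := by ring

end Pool.Agent.H117R3.Baton
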