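import Mathlib

set_option autoImplicit false

namespace Pool.Agent.H117R3.Baton

open Finset

/-- counting the tuples of centres which serve a given point -/
lemma count_centres {G : Type*} [AddCommGroup G] [Fintype G] [DecidableEq G]
    (B B' : Finset G) (hB : B ⊆ B') (m : ℕ) (z : G) :
    m * (B.card * (Fintype.card G - B'.card) ^ (m - 1)) ≤
      (univ.filter (fun c : Fin m → G =>
        ∃ j, z - c j ∈ B ∧ ∀ i, i ≠ j → z - c i ∉ B')).card := by
  classical
  set X : Finset G := univ.filter (fun g => z - g ∈ B) with hX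
  set Y : Finset G := univ.filter (fun g => z - g ∉ B') with hY
  have hXc : X.card = B.card := by
    have : X = B.image (fun g => z - g) := by
      ext g
      simp only [hX, Finset.mem_filter, Finset.mem_univ, true_and, Finset.mem_image]
      constructor
      · intro h
        exact ⟨z - g, h, by abel⟩
      · rintro ⟨a, ha, rfl⟩
        have : z - (z - a) = a := by abel
        rwa [this]
    rw [this, Finset.card_image_of_injective _ (sub_right_injective)]
  have hYc : Y.card = Fintype.card G - B'.card := by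
    have h1 : Y = (univ.filter (fun g => z - g ∈ B'))ᶜ := by
      ext g
      simp [hY]
    have h2 : (univ.filter (fun g => z - g ∈ B')) = B'.image (fun g => z - g) := by
      ext g
      simp only [Finset.mem_filter, Finset.mem_univ, true_and, Finset.mem_image]
      constructor
      · intro h
        exact ⟨z - g, h, by abel⟩
      · rintro ⟨a, ha, rfl⟩
        have : z - (z - a) = a := by abel
        rwa [this]
    rw [h1, Finset.card_compl, h2, Finset.card_image_of_injective _ (sub_right_injective)]
  let P : Fin m → Finset (Fin m → G) := fun j =>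
    Fintype.piFinset (fun i => if i = j then X else Y)
  have hPc : ∀ j, (P j).card = B.card * (Fintype.card G - B'.card) ^ (m - 1) := by
    intro j
    change (Fintype.piFinset (fun i => if i = j then X else Y)).card = _
    rw [Fintype.card_piFinset, ← Finset.mul_prod_erase _ _ (Finset.mem_univ j)]
    rw [if_pos rfl, hXc]
    congr 1
    have : ∀ i ∈ (univ : Finset (Fin m)).erase j, (if i = j then X else Y).card =
        (Fintype.card G - B'.card) := by
      intro i hi
      rw [if_neg (Finset.ne_of_mem_erase hi), hYc]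
    rw [Finset.prod_congr rfl this, Finset.prod_const, Finset.card_erase_of_mem (Finset.mem_univ j)]
    simp
  have hdisj : Set.PairwiseDisjoint (↑(univ : Finset (Fin m))) P := by
    intro j _ j' _ hjj
    change Disjoint (P j) (P j')
    rw [Finset.disjoint_left]
    intro c hc hc'
    have h1 := (Fintype.mem_piFinset.mp hc) j
    have h2 := (Fintype.mem_piFinset.mp hc') j
    rw [if_pos rfl] at h1
    rw [if_neg hjj] at h2
    simp only [hX, hY, Finset.mem_filter, Finset.mem_univ, true_and] at h1 h2
    exact h2 (hB h1)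
  have hsub : (univ : Finset (Fin m)).biUnion P ⊆ (univ.filter (fun c : Fin m → G =>
        ∃ j, z - c j ∈ B ∧ ∀ i, i ≠ j → z - c i ∉ B')) := by
    intro c hc
    rw [Finset.mem_biUnion] at hc
    obtain ⟨j, _, hj⟩ := hc
    rw [Finset.mem_filter]
    refine ⟨Finset.mem_univ _, j, ?_, ?_⟩
    · have h1 := (Fintype.mem_piFinset.mp hj) j
      rw [if_pos rfl] at h1
      simpa [hX] using h1
    · intro i hij
      have h1 := (Fintype.mem_piFinset.mp hj) i
      rw [if_neg hij] at h1
      simpa [hY] using h1
  have := Finset.card_le_card hsub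
  rw [Finset.card_biUnion hdisj] at this
  simp only [hPc, Finset.sum_const, Finset.card_univ, Fintype.card_fin, smul_eq_mul] at this
  exact this

/-- union bound -/
lemma exists_cover {G C : Type*} [Fintype G] [Fintype C] [DecidableEq C]
    (P : C → G → Prop) [∀ z, DecidablePred (fun c => P c z)] (t K : ℕ)
    (hC : 0 < Fintype.card C)
    (hK : ∀ z, K ≤ (univ.filter (fun c => P c z)).card)
    (h : (Fintype.card G : ℝ) * (1 - (K:ℝ) / Fintype.card C) ^ t < 1) :
    ∃ cs : Fin t → C, ∀ z, ∃ s, P (cs s) z := by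
  classical
  by_contra hcon
  push Not at hcon
  have hcov : (univ : Finset (Fin t → C)) ⊆ (univ : Finset G).biUnion
      (fun z => Fintype.piFinset (fun _ : Fin t => univ.filter (fun c => ¬ P c z))) := by
    intro cs _
    obtain ⟨z, hz⟩ := hcon cs
    rw [Finset.mem_biUnion]
    refine ⟨z, Finset.mem_univ _, ?_⟩
    rw [Fintype.mem_piFinset]
    intro s
    rw [Finset.mem_filter]
    exact ⟨Finset.mem_univ _, hz s⟩
  have h1 := Finset.card_le_card hcov
  have h2 := h1.trans Finset.card_biUnion_le
  have h3 : ∀ z : G, (Fintype.piFinset (fun _ : Fin t => univ.filter (fun c => ¬ P c z))).card ≤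
      (Fintype.card C - K) ^ t := by
    intro z
    rw [Fintype.card_piFinset]
    simp only [Finset.prod_const, Finset.card_univ, Fintype.card_fin]
    apply Nat.pow_le_pow_left
    have := Finset.card_filter_add_card_filter_not (s := (univ : Finset C)) (fun c => P c z)
    rw [Finset.card_univ] at this
    have := hK z
    omega
  have h4 := h2.trans (Finset.sum_le_sum (fun z _ => h3 z))
  rw [Finset.card_univ, Fintype.card_pi] at h4
  simp only [Finset.prod_const, Finset.card_univ, Fintype.card_fin, Finset.sum_const,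
    smul_eq_mul] at h4
  have hKC : K ≤ Fintype.card C ∨ Fintype.card G = 0 := by
    rcases isEmpty_or_nonempty G with hG | hG
    · right; exact Fintype.card_eq_zero
    · left
      obtain ⟨z⟩ := hG
      exact (hK z).trans (Finset.card_le_univ _)
  have hCr : (0:ℝ) < Fintype.card C := by exact_mod_cast hC
  rcases hKC with hKC | hG0
  · have h5 : ((Fintype.card C : ℝ)) ^ t ≤ Fintype.card G * ((Fintype.card C : ℝ) - K) ^ t := by
      have : ((Fintype.card C ^ t : ℕ) : ℝ) ≤ ((Fintype.card G * (Fintype.card C - K) ^ t : ℕ) : ℝ) := by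
        exact_mod_cast h4
      push_cast [Nat.cast_sub hKC] at this
      exact this
    have h6 : (Fintype.card G : ℝ) * ((Fintype.card C : ℝ) - K) ^ t =
        (Fintype.card G : ℝ) * (1 - (K:ℝ) / Fintype.card C) ^ t * (Fintype.card C : ℝ) ^ t := by
      rw [mul_assoc, ← mul_pow]
      congr 2
      field_simp
    rw [h6] at h5
    have h7 : (0:ℝ) < (Fintype.card C : ℝ) ^ t := by positivity
    nlinarith
  · rw [hG0] at h4
    simp at h4
    omega

/-- lower bound for the proportion of good centre tuples -/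
lemma proportion {g b b' m : ℕ} (hg : 0 < g) (hb' : 0 < b') (hbg : 2 * b' ≤ g)
    (hm : m = g / (2 * b')) :
    (b : ℝ) / (8 * b') ≤ ((m * (b * (g - b') ^ (m - 1)) : ℕ) : ℝ) / ((g : ℝ) ^ m) := by
  have hm1 : 1 ≤ m := by
    rw [hm]
    exact (Nat.one_le_div_iff (by omega)).mpr hbg
  have h1 : m * (2 * b') ≤ g := by
    rw [hm]
    exact Nat.div_mul_le_self g (2 * b')
  have h2 : g < 4 * m * b' := by
    have := Nat.lt_div_mul_add (a := g) (b := 2 * b') (by omega)
    rw [← hm] at this
    nlinarith
  have hgr : (0:ℝ) < g := by exact_mod_cast hg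
  have hb'r : (0:ℝ) < b' := by exact_mod_cast hb'
  have hbgr : (2:ℝ) * b' ≤ g := by exact_mod_cast hbg
  have h1r : (m:ℝ) * (2 * b') ≤ g := by exact_mod_cast h1
  have h2r : (g:ℝ) < 4 * m * b' := by exact_mod_cast h2
  have hle : b' ≤ g := by omega
  push_cast [Nat.cast_sub hle]
  obtain ⟨k, rfl⟩ : ∃ k, m = k + 1 := ⟨m - 1, by omega⟩
  simp only [Nat.add_sub_cancel]
  have hbern : (1:ℝ) / 2 ≤ (1 - (b':ℝ) / g) ^ k := by
    have hb1 : (-2 : ℝ) ≤ -((b':ℝ) / g) := by
      have : (b':ℝ) / g ≤ 1 := by
        rw [div_le_one hgr]; linarith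
      linarith
    have := one_add_mul_le_pow hb1 k
    have e : (1:ℝ) + -((b':ℝ) / g) = 1 - (b':ℝ) / g := by ring
    rw [e] at this
    refine le_trans ?_ this
    have hk : (k:ℝ) * ((b':ℝ) / g) ≤ 1 / 2 := by
      rw [mul_div_assoc', div_le_iff₀ hgr]
      push_cast at h1r
      nlinarith
    linarith
  have e1 : ((g:ℝ) - b') ^ k = (1 - (b':ℝ) / g) ^ k * (g:ℝ) ^ k := by
    rw [← mul_pow]
    congr 1
    field_simp
  rw [e1]
  have e2 : ((k + 1 : ℕ) : ℝ) * ((b:ℝ) * ((1 - (b':ℝ) / g) ^ k * (g:ℝ) ^ k)) / (g:ℝ) ^ (k + 1) =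
      ((k + 1 : ℕ) : ℝ) / g * (b:ℝ) * (1 - (b':ℝ) / g) ^ k := by
    generalize (1 - (b':ℝ) / g) ^ k = X
    field_simp
    ring
  push_cast at e2 h2r ⊢
  rw [e2]
  have h3 : (1:ℝ) / (4 * b') ≤ ((k:ℝ) + 1) / g := by
    rw [div_le_div_iff₀ (by positivity) hgr]
    nlinarith
  calc (b:ℝ) / (8 * b') = 1 / (4 * b') * b * (1 / 2) := by field_simp; ring
    _ ≤ ((k:ℝ) + 1) / g * b * (1 - (b':ℝ) / g) ^ k := by gcongr

end Pool.Agent.H117R3.Baton
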