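import Mathlib
import Pool.Agent.H117R3.BatonA
import Pool.Agent.H117R3.BatonB

set_option autoImplicit false

namespace Pool.Agent.H117R3.Baton

open Finset

/-- projection to the discrete torus -/
def proj (n L : ℕ) (z : Fin n → ℤ) : Fin n → ZMod L := fun i => (z i : ZMod L)

lemma proj_sub (n L : ℕ) (z w : Fin n → ℤ) : proj n L (z - w) = proj n L z - proj n L w := by
  funext i
  simp [proj]

lemma proj_add (n L : ℕ) (z w : Fin n → ℤ) : proj n L (z + w) = proj n L z + proj n L w := by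
  funext i
  simp [proj]

/-- ball in the torus -/
noncomputable def tball (n L R : ℕ) : Finset (Fin n → ZMod L) := by
  classical exact (ball n R).image (proj n L)

lemma mem_tball {n L R : ℕ} {g : Fin n → ZMod L} :
    g ∈ tball n L R ↔ ∃ w : Fin n → ℤ, ∑ i, |w i| ≤ (R:ℤ) ∧ proj n L w = g := by
  unfold tball
  simp only [Finset.mem_image, mem_ball]

lemma tball_mono {n L R S : ℕ} (h : R ≤ S) : tball n L R ⊆ tball n L S := by
  classical
  unfold tball
  exact Finset.image_subset_image (ball_mono h)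

lemma proj_inj {n L : ℕ} {v w : Fin n → ℤ} (h : proj n L v = proj n L w)
    (hlt : ∑ i, |v i - w i| < (L:ℤ)) : v = w := by
  funext i
  have h1 : ((v i : ZMod L)) = (w i : ZMod L) := congrFun h i
  rw [ZMod.intCast_eq_intCast_iff_dvd_sub] at h1
  have h2 : |v i - w i| ≤ ∑ j, |v j - w j| :=
    Finset.single_le_sum (f := fun j => |v j - w j|) (fun j _ => abs_nonneg _) (Finset.mem_univ i)
  have h3 : w i - v i = 0 := by
    apply Int.eq_zero_of_abs_lt_dvd h1
    rw [abs_sub_comm]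
    exact lt_of_le_of_lt h2 hlt
  omega

lemma card_tball_le (n L R : ℕ) : (tball n L R).card ≤ (ball n R).card := by
  classical
  unfold tball
  exact Finset.card_image_le

lemma card_tball_eq (n L R : ℕ) (h : 2 * R < L) : (tball n L R).card = (ball n R).card := by
  classical
  unfold tball
  apply Finset.card_image_of_injOn
  intro v hv w hw hvw
  rw [Finset.mem_coe, mem_ball] at hv hw
  apply proj_inj hvw
  calc ∑ i, |v i - w i| ≤ ∑ i, (|v i| + |w i|) := Finset.sum_le_sum (fun i _ => abs_sub (v i) (w i))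
    _ = ∑ i, |v i| + ∑ i, |w i| := Finset.sum_add_distrib
    _ ≤ R + R := add_le_add hv hw
    _ < L := by
      have : ((2 * R : ℕ) : ℤ) < L := by exact_mod_cast h
      push_cast at this
      linarith

/-- point `g` is served by the tuple of centres `c` -/
def Served (n L R S m : ℕ) (c : Fin m → (Fin n → ZMod L)) (g : Fin n → ZMod L) : Prop :=
  ∃ j, g - c j ∈ tball n L R ∧ ∀ i, i ≠ j → g - c i ∉ tball n L S

/-- rescaled integer part -/
noncomputable def cell (n : ℕ) (x : Fin n → ℝ) : Fin n → ℤ := fun i => ⌊(n:ℝ) * x i⌋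

lemma cell_close (n : ℕ) (x y : Fin n → ℝ) :
    ((∑ i, |cell n x i - cell n y i| : ℤ) : ℝ) ≤ n * (∑ i, |x i - y i|) + n := by
  push_cast
  have h : ∀ i : Fin n, |((cell n x i : ℤ) : ℝ) - ((cell n y i : ℤ) : ℝ)| ≤ n * |x i - y i| + 1 := by
    intro i
    have h1 := Int.floor_le ((n:ℝ) * x i)
    have h2 := Int.lt_floor_add_one ((n:ℝ) * x i)
    have h3 := Int.floor_le ((n:ℝ) * y i)
    have h4 := Int.lt_floor_add_one ((n:ℝ) * y i)
    have h5 : (n:ℝ) * |x i - y i| = |(n:ℝ) * x i - n * y i| := by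
      rw [← mul_sub, abs_mul, Nat.abs_cast]
    rw [h5]
    change |((⌊(n:ℝ) * x i⌋ : ℤ) : ℝ) - ((⌊(n:ℝ) * y i⌋ : ℤ) : ℝ)| ≤ _
    rcases le_total ((n:ℝ) * x i) (n * y i) with hle | hle
    · rw [abs_of_nonpos (by linarith : (n:ℝ) * x i - n * y i ≤ 0), abs_le]
      constructor <;> linarith
    · rw [abs_of_nonneg (by linarith : 0 ≤ (n:ℝ) * x i - n * y i), abs_le]
      constructor <;> linarith
  calc ∑ i, |((cell n x i : ℤ) : ℝ) - ((cell n y i : ℤ) : ℝ)| ≤ ∑ i : Fin n, (n * |x i - y i| + 1) :=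
        Finset.sum_le_sum (fun i _ => h i)
    _ = n * (∑ i, |x i - y i|) + n := by
        rw [Finset.sum_add_distrib, Finset.mul_sum]
        simp

lemma cell_far (n : ℕ) (x y : Fin n → ℝ) :
    n * (∑ i, |x i - y i|) - n ≤ ((∑ i, |cell n x i - cell n y i| : ℤ) : ℝ) := by
  push_cast
  have h : ∀ i : Fin n, n * |x i - y i| - 1 ≤ |((cell n x i : ℤ) : ℝ) - ((cell n y i : ℤ) : ℝ)| := by
    intro i
    have h1 := Int.floor_le ((n:ℝ) * x i)
    have h2 := Int.lt_floor_add_one ((n:ℝ) * x i)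
    have h3 := Int.floor_le ((n:ℝ) * y i)
    have h4 := Int.lt_floor_add_one ((n:ℝ) * y i)
    have h5 : (n:ℝ) * |x i - y i| = |(n:ℝ) * x i - n * y i| := by
      rw [← mul_sub, abs_mul, Nat.abs_cast]
    rw [h5]
    change _ ≤ |((⌊(n:ℝ) * x i⌋ : ℤ) : ℝ) - ((⌊(n:ℝ) * y i⌋ : ℤ) : ℝ)|
    rcases le_total ((n:ℝ) * x i) (n * y i) with hle | hle
    · rw [abs_of_nonpos (by linarith : (n:ℝ) * x i - n * y i ≤ 0)]
      refine le_trans ?_ (neg_le_abs _)
      linarith
    · rw [abs_of_nonneg (by linarith : 0 ≤ (n:ℝ) * x i - n * y i)]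
      refine le_trans ?_ (le_abs_self _)
      linarith
  calc n * (∑ i, |x i - y i|) - n = ∑ i : Fin n, (n * |x i - y i| - 1) := by
        rw [Finset.sum_sub_distrib, Finset.mul_sum]
        simp
    _ ≤ _ := Finset.sum_le_sum (fun i _ => h i)

/-- a colour class of served points contains no long baton -/
lemma no_baton {n b L m : ℕ} (hn : 1 ≤ n) (hL : n * (b + 1) + n * (b + 3) < L)
    (c : Fin m → (Fin n → ZMod L)) (f : Fin (2 * b + 4 + 1) → (Fin n → ℝ))
    (hf : ∀ i j : Fin (2 * b + 4 + 1),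
      ∑ t : Fin n, |f i t - f j t| = |((i : ℕ) : ℝ) - ((j : ℕ) : ℝ)|)
    (hs : ∀ i, Served n L (n * (b + 1)) (n * (b + 3)) m c (proj n L (cell n (f i)))) : False := by
  classical
  obtain ⟨j0, hj0, hj0'⟩ := hs 0
  rw [mem_tball] at hj0
  obtain ⟨w0, hw0, hw0'⟩ := hj0
  have key : ∀ i : ℕ, ∀ hi : i < 2 * b + 4 + 1,
      ∑ t, |(w0 + (cell n (f ⟨i, hi⟩) - cell n (f 0))) t| ≤ ((n * (b + 1) : ℕ) : ℤ) := by
    intro i
    induction i with
    | zero =>
      intro hi
      have : (⟨0, hi⟩ : Fin (2 * b + 4 + 1)) = 0 := rfl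
      rw [this, sub_self, add_zero]
      exact hw0
    | succ i ih =>
      intro hi
      have ih' := ih (by omega)
      set u : Fin n → ℤ := w0 + (cell n (f ⟨i, by omega⟩) - cell n (f 0)) with hu
      set u' : Fin n → ℤ := w0 + (cell n (f ⟨i + 1, hi⟩) - cell n (f 0)) with hu'
      have hstep : ∑ t, |u' t - u t| ≤ ((2 * n : ℕ) : ℤ) := by
        have h1 := cell_close n (f ⟨i + 1, hi⟩) (f ⟨i, by omega⟩)
        rw [hf] at h1
        have h2 : |(((⟨i + 1, hi⟩ : Fin (2 * b + 4 + 1)) : ℕ) : ℝ) - (((⟨i, by omega⟩ : Fin (2 * b + 4 + 1)) : ℕ) : ℝ)| = 1 := by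
          simp
        rw [h2] at h1
        have h3 : ∑ t, |u' t - u t| = ∑ t, |cell n (f ⟨i + 1, hi⟩) t - cell n (f ⟨i, by omega⟩) t| := by
          apply Finset.sum_congr rfl
          intro t _
          congr 1
          simp only [hu, hu', Pi.add_apply, Pi.sub_apply]
          ring
        rw [h3]
        have h4 : ((∑ t, |cell n (f ⟨i + 1, hi⟩) t - cell n (f ⟨i, by omega⟩) t| : ℤ) : ℝ) ≤ ((2 * n : ℕ) : ℤ) := by
          push_cast at h1 ⊢
          linarith
        exact_mod_cast h4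
      have hu'S : ∑ t, |u' t| ≤ ((n * (b + 3) : ℕ) : ℤ) := by
        calc ∑ t, |u' t| ≤ ∑ t, (|u' t - u t| + |u t|) := by
              apply Finset.sum_le_sum
              intro t _
              have := abs_add_le (u' t - u t) (u t)
              simpa using this
          _ = ∑ t, |u' t - u t| + ∑ t, |u t| := Finset.sum_add_distrib
          _ ≤ ((2 * n : ℕ) : ℤ) + ((n * (b + 1) : ℕ) : ℤ) := add_le_add hstep ih'
          _ = ((n * (b + 3) : ℕ) : ℤ) := by push_cast; ring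
      have hproj : proj n L u' = proj n L (cell n (f ⟨i + 1, hi⟩)) - c j0 := by
        rw [hu', proj_add, proj_sub, hw0']
        abel
      obtain ⟨j1, hj1, hj1'⟩ := hs ⟨i + 1, hi⟩
      have hj : j0 = j1 := by
        by_contra hne
        exact hj1' j0 hne (mem_tball.mpr ⟨u', hu'S, hproj⟩)
      subst hj
      rw [mem_tball] at hj1
      obtain ⟨v, hv, hv'⟩ := hj1
      have hvu : v = u' := by
        apply proj_inj (hv'.trans hproj.symm)
        calc ∑ t, |v t - u' t| ≤ ∑ t, (|v t| + |u' t|) :=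
              Finset.sum_le_sum (fun t _ => abs_sub (v t) (u' t))
          _ = ∑ t, |v t| + ∑ t, |u' t| := Finset.sum_add_distrib
          _ ≤ ((n * (b + 1) : ℕ) : ℤ) + ((n * (b + 3) : ℕ) : ℤ) := add_le_add hv hu'S
          _ < L := by exact_mod_cast hL
      rw [hvu] at hv
      exact hv
  have hlast := key (2 * b + 4) (by omega)
  have hfar := cell_far n (f ⟨2 * b + 4, by omega⟩) (f 0)
  rw [hf] at hfar
  have h2 : |(((⟨2 * b + 4, by omega⟩ : Fin (2 * b + 4 + 1)) : ℕ) : ℝ) - (((0 : Fin (2 * b + 4 + 1)) : ℕ) : ℝ)| = 2 * b + 4 := by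
    simp only [Fin.val_zero, Nat.cast_zero, sub_zero]
    rw [abs_of_nonneg (by positivity)]
    push_cast
    ring
  rw [h2] at hfar
  have h3 : ∑ t, |cell n (f ⟨2 * b + 4, by omega⟩) t - cell n (f 0) t| ≤
      ((n * (b + 1) : ℕ) : ℤ) + ((n * (b + 1) : ℕ) : ℤ) := by
    calc ∑ t, |cell n (f ⟨2 * b + 4, by omega⟩) t - cell n (f 0) t|
        ≤ ∑ t, (|(w0 + (cell n (f ⟨2 * b + 4, by omega⟩) - cell n (f 0))) t| + |w0 t|) := by
          apply Finset.sum_le_sum
          intro t _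
          have := abs_sub (w0 t + (cell n (f ⟨2 * b + 4, by omega⟩) t - cell n (f 0) t)) (w0 t)
          simpa using this
      _ = ∑ t, |(w0 + (cell n (f ⟨2 * b + 4, by omega⟩) - cell n (f 0))) t| + ∑ t, |w0 t| :=
          Finset.sum_add_distrib
      _ ≤ _ := add_le_add hlast hw0
  have h4 : ((∑ t, |cell n (f ⟨2 * b + 4, by omega⟩) t - cell n (f 0) t| : ℤ) : ℝ) ≤
      2 * ((n:ℝ) * (b + 1)) := by
    have : ((∑ t, |cell n (f ⟨2 * b + 4, by omega⟩) t - cell n (f 0) t| : ℤ) : ℝ) ≤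
      ((((n * (b + 1) : ℕ) : ℤ) + ((n * (b + 1) : ℕ) : ℤ) : ℤ) : ℝ) := by exact_mod_cast h3
    push_cast at this ⊢
    linarith
  have hnr : (1:ℝ) ≤ n := by exact_mod_cast hn
  nlinarith

end Pool.Agent.H117R3.Baton
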