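import Mathlib

/-!
# Right-piecewise-affine order automorphisms of the line and local indicability
-/

set_option autoImplicit false

namespace Pool.Agent.H117R3

/-- A nontrivial homomorphism from a finitely generated group to the additive reals yields a
surjection onto the integers. -/
theorem exists_surj_int {K : Type*} [Group K] [Group.FG K] (f : K →* Multiplicative ℝ)
    (hf : ∃ k, f k ≠ 1) : ∃ g : K →* Multiplicative ℤ, Function.Surjective g := by
  classical
  -- the range as an additive subgroup of the reals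
  let A : AddSubgroup ℝ := Subgroup.toAddSubgroup' f.range
  have hA : ∀ x : ℝ, x ∈ A ↔ ∃ k, f k = Multiplicative.ofAdd x := by
    intro x; rfl
  have hfgA : A.FG := by
    have h1 : (f.range).FG := by
      have := Group.fg_range f
      exact (Group.fg_iff_subgroup_fg _).1 this
    exact (Subgroup.fg_iff_add_fg _).1 h1
  have h2 : Module.Finite ℤ A := by
    have : AddGroup.FG A := (AddGroup.fg_iff_addSubgroup_fg _).2 hfgA
    exact Module.Finite.iff_addGroup_fg.2 this
  have h3 : Module.Free ℤ A := Module.free_of_finite_type_torsion_free'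
  obtain ⟨k0, hk0⟩ := hf
  have hnt : Nontrivial A := by
    refine ⟨⟨⟨(f k0).toAdd, (hA _).2 ⟨k0, rfl⟩⟩, 0, ?_⟩⟩
    intro h
    apply hk0
    have := congrArg Subtype.val h
    exact this
  obtain b := Module.Free.chooseBasis ℤ A
  have hne : Nonempty (Module.Free.ChooseBasisIndex ℤ A) := b.index_nonempty
  obtain ⟨i⟩ := hne
  let F : K →* Multiplicative A :=
    { toFun := fun k => Multiplicative.ofAdd ⟨(f k).toAdd, (hA _).2 ⟨k, rfl⟩⟩
      map_one' := by
        apply Multiplicative.toAdd.injective
        apply Subtype.ext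
        simp
      map_mul' := by
        intro x y
        apply Multiplicative.toAdd.injective
        apply Subtype.ext
        simp }
  have hF : Function.Surjective F := by
    intro a
    obtain ⟨k, hk⟩ := (hA _).1 a.toAdd.2
    refine ⟨k, ?_⟩
    apply Multiplicative.toAdd.injective
    apply Subtype.ext
    show (f k).toAdd = _
    rw [hk]
    rfl
  refine ⟨(AddMonoidHom.toMultiplicative (b.coord i).toAddMonoidHom).comp F, ?_⟩
  have hc : Function.Surjective (AddMonoidHom.toMultiplicative (b.coord i).toAddMonoidHom) := by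
    intro z
    refine ⟨Multiplicative.ofAdd (z.toAdd • b i), ?_⟩
    apply Multiplicative.toAdd.injective
    show b.coord i (z.toAdd • b i) = z.toAdd
    simp
  exact hc.comp hF

/-- `f` fixes all nonpositive reals and is affine with positive slope on a right neighbourhood of
each point. -/
def RightAffine (f : ℝ ≃o ℝ) : Prop :=
  (∀ x ≤ 0, f x = x) ∧
    ∀ x : ℝ, ∃ c > 0, ∃ ε > 0, ∀ y, x ≤ y → y ≤ x + ε → f y = f x + c * (y - x)

theorem RightAffine.one : RightAffine 1 := by
  refine ⟨fun x _ => rfl, fun x => ⟨1, one_pos, 1, one_pos, fun y _ _ => ?_⟩⟩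
  show y = x + 1 * (y - x)
  ring

theorem RightAffine.mul {f g : ℝ ≃o ℝ} (hf : RightAffine f) (hg : RightAffine g) :
    RightAffine (f * g) := by
  refine ⟨fun x hx => ?_, fun x => ?_⟩
  · show f (g x) = x
    rw [hg.1 x hx, hf.1 x hx]
  · obtain ⟨c, hc, ε, hε, h⟩ := hg.2 x
    obtain ⟨d, hd, δ, hδ, h'⟩ := hf.2 (g x)
    refine ⟨d * c, mul_pos hd hc, min ε (δ / c), lt_min hε (div_pos hδ hc), fun y hy hy' => ?_⟩
    show f (g y) = f (g x) + d * c * (y - x)
    have h1 : y ≤ x + ε := hy'.trans (by gcongr; exact min_le_left _ _)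
    have h2 : y ≤ x + δ / c := hy'.trans (by gcongr; exact min_le_right _ _)
    have h3 : g y = g x + c * (y - x) := h y hy h1
    have h4 : g x ≤ g y := g.monotone hy
    have h5 : g y ≤ g x + δ := by
      rw [h3]
      have : c * (y - x) ≤ c * (δ / c) := by
        apply mul_le_mul_of_nonneg_left _ hc.le
        linarith
      rw [mul_div_cancel₀ _ hc.ne'] at this
      linarith
    rw [h' (g y) h4 h5, h3]
    ring

theorem RightAffine.inv {f : ℝ ≃o ℝ} (hf : RightAffine f) : RightAffine f⁻¹ := by
  refine ⟨fun x hx => ?_, fun x => ?_⟩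
  · show f.symm x = x
    rw [OrderIso.symm_apply_eq]
    exact (hf.1 x hx).symm
  · obtain ⟨c, hc, ε, hε, h⟩ := hf.2 (f.symm x)
    refine ⟨c⁻¹, inv_pos.2 hc, c * ε, mul_pos hc hε, fun y hy hy' => ?_⟩
    show f.symm y = f.symm x + c⁻¹ * (y - x)
    rw [OrderIso.symm_apply_eq]
    rw [h]
    · rw [OrderIso.apply_symm_apply]
      field_simp
      ring
    · have : 0 ≤ c⁻¹ * (y - x) := mul_nonneg (inv_pos.2 hc).le (by linarith)
      linarith
    · have : c⁻¹ * (y - x) ≤ c⁻¹ * (c * ε) :=
        mul_le_mul_of_nonneg_left (by linarith) (inv_pos.2 hc).le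
      rw [← mul_assoc, inv_mul_cancel₀ hc.ne', one_mul] at this
      linarith

/-- The group of all right-affine order automorphisms of the line fixing the nonpositive reals. -/
def LL : Subgroup (ℝ ≃o ℝ) where
  carrier := {f | RightAffine f}
  one_mem' := RightAffine.one
  mul_mem' := RightAffine.mul
  inv_mem' := RightAffine.inv

theorem mem_LL {f : ℝ ≃o ℝ} : f ∈ LL ↔ RightAffine f := Iff.rfl

/-- Every nontrivial finitely generated subgroup of `LL` maps onto the integers. -/
theorem indicable (K : Subgroup (ℝ ≃o ℝ)) (hK : K ≤ LL) (hfg : K.FG) (hne : K ≠ ⊥) :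
    ∃ g : K →* Multiplicative ℤ, Function.Surjective g := by
  classical
  obtain ⟨k0, hk0, hk1⟩ : ∃ k ∈ K, k ≠ 1 := by
    by_contra h
    push Not at h
    exact hne ((Subgroup.eq_bot_iff_forall _).2 h)
  obtain ⟨y, hy⟩ : ∃ y, k0 y ≠ y := by
    by_contra h
    push Not at h
    exact hk1 (RelIso.ext h)
  let S : Set ℝ := {x | x ≤ y ∧ ∀ g ∈ K, g x = x}
  have hy0 : 0 < y := by
    by_contra h
    exact hy ((hK hk0).1 y (not_lt.1 h))
  have hS0 : (0 : ℝ) ∈ S := ⟨hy0.le, fun g hg => (hK hg).1 0 le_rfl⟩
  have hSb : BddAbove S := ⟨y, fun x hx => hx.1⟩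
  set p := sSup S with hp
  have hlub : IsLUB S p := isLUB_csSup ⟨0, hS0⟩ hSb
  have hpy : p ≤ y := hlub.2 (fun x hx => hx.1)
  have hpfix : ∀ g ∈ K, g p = p := by
    intro g hg
    have h1 : IsLUB (g '' S) (g p) := g.isLUB_image'.2 hlub
    have h2 : g '' S = S := by
      ext x
      constructor
      · rintro ⟨z, hz, rfl⟩
        rw [hz.2 g hg]; exact hz
      · intro hx
        exact ⟨x, hx, hx.2 g hg⟩
    rw [h2] at h1
    exact h1.unique hlub
  have hplt : p < y := by
    rcases hpy.lt_or_eq with h | h
    · exact h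
    · exact absurd (h ▸ hpfix k0 hk0) hy
  -- slopes
  have hslope : ∀ g : K, ∃ c : ℝ, 0 < c ∧ ∃ ε > 0, ∀ z, p ≤ z → z ≤ p + ε →
      (g : ℝ ≃o ℝ) z = p + c * (z - p) := by
    intro g
    obtain ⟨c, hc, ε, hε, h⟩ := (hK g.2).2 p
    refine ⟨c, hc, ε, hε, fun z h1 h2 => ?_⟩
    rw [h z h1 h2, hpfix g.1 g.2]
  choose c hc ε hε hcε using hslope
  have huniq : ∀ (g : K) (d δ : ℝ), 0 < δ →
      (∀ z, p ≤ z → z ≤ p + δ → (g : ℝ ≃o ℝ) z = p + d * (z - p)) → c g = d := by
    intro g d δ hδ h
    have hm : 0 < min (ε g) δ := lt_min (hε g) hδ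
    have h1 := hcε g (p + min (ε g) δ) (by linarith) (by gcongr; exact min_le_left _ _)
    have h2 := h (p + min (ε g) δ) (by linarith) (by gcongr; exact min_le_right _ _)
    rw [h1] at h2
    have h3 : c g * min (ε g) δ = d * min (ε g) δ := by linarith
    exact mul_right_cancel₀ hm.ne' h3
  have hmul : ∀ g h : K, c (g * h) = c g * c h := by
    intro g h
    apply huniq (g * h) _ (min (ε h) (ε g / c h)) (lt_min (hε h) (div_pos (hε g) (hc h)))
    intro z hz hz'
    show (g : ℝ ≃o ℝ) ((h : ℝ ≃o ℝ) z) = _
    have h1 : z ≤ p + ε h := hz'.trans (by gcongr; exact min_le_left _ _)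
    have h2 : z ≤ p + ε g / c h := hz'.trans (by gcongr; exact min_le_right _ _)
    rw [hcε h z hz h1, hcε g]
    · ring
    · have : 0 ≤ c h * (z - p) := mul_nonneg (hc h).le (by linarith)
      linarith
    · have : c h * (z - p) ≤ c h * (ε g / c h) :=
        mul_le_mul_of_nonneg_left (by linarith) (hc h).le
      rw [mul_div_cancel₀ _ (hc h).ne'] at this
      linarith
  have hone : c 1 = 1 := by
    apply huniq 1 1 1 one_pos
    intro z _ _
    show z = _
    ring
  let f : K →* Multiplicative ℝ :=
    { toFun := fun g => Multiplicative.ofAdd (Real.log (c g))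
      map_one' := by rw [hone, Real.log_one]; rfl
      map_mul' := by
        intro g h
        rw [hmul, Real.log_mul (hc g).ne' (hc h).ne']; rfl }
  have : Group.FG K := (Group.fg_iff_subgroup_fg _).2 hfg
  apply exists_surj_int f
  by_contra hcon
  push Not at hcon
  have hc1 : ∀ g, c g = 1 := by
    intro g
    have h1 : Real.log (c g) = 0 := hcon g
    exact Real.eq_one_of_pos_of_log_eq_zero (hc g) h1
  obtain ⟨T, hT⟩ := hfg
  -- a common right neighbourhood
  have hεT : ∃ e > 0, ∀ g ∈ T, ∀ z, p ≤ z → z ≤ p + e → (g : ℝ ≃o ℝ) z = z := by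
    have key : ∀ T' : Finset (ℝ ≃o ℝ), (∀ g ∈ T', g ∈ K) →
        ∃ e > 0, ∀ g ∈ T', ∀ z, p ≤ z → z ≤ p + e → (g : ℝ ≃o ℝ) z = z := by
      intro T'
      induction T' using Finset.induction_on with
      | empty => intro _; exact ⟨1, one_pos, by simp⟩
      | insert a s _ ih =>
        intro hs
        obtain ⟨e, he, h⟩ := ih (fun g hg => hs g (Finset.mem_insert_of_mem hg))
        have ha : a ∈ K := hs a (Finset.mem_insert_self _ _)
        refine ⟨min e (ε ⟨a, ha⟩), lt_min he (hε _), ?_⟩
        intro g hg z hz hz'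
        rw [Finset.mem_insert] at hg
        rcases hg with rfl | hg
        · have := hcε ⟨g, ha⟩ z hz (hz'.trans (by gcongr; exact min_le_right _ _))
          rw [hc1] at this
          have h2 : (g : ℝ ≃o ℝ) z = p + 1 * (z - p) := this
          rw [h2]; ring
        · exact h g hg z hz (hz'.trans (by gcongr; exact min_le_left _ _))
    apply key
    intro g hg
    rw [← hT]
    exact Subgroup.subset_closure hg
  obtain ⟨e, he, hT'⟩ := hεT
  set q := min (p + e) y with hq
  have hpq : p < q := lt_min (by linarith) hplt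
  have hqS : q ∈ S := by
    refine ⟨min_le_right _ _, ?_⟩
    intro g hg
    rw [← hT] at hg
    induction hg using Subgroup.closure_induction with
    | mem x hx => exact hT' x hx q hpq.le (min_le_left _ _)
    | one => rfl
    | mul x y _ _ h1 h2 =>
      show x (y q) = q
      rw [h2, h1]
    | inv x _ h1 =>
      show x.symm q = q
      rw [OrderIso.symm_apply_eq, h1]
  exact absurd (hlub.1 hqS) (not_le.2 hpq)

/-- The order automorphism fixing `(-∞, t]`, of slope two on `[t, t + 1]` and the translation by
one on `[t + 1, ∞)`. -/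
noncomputable def sh (t : ℝ) : ℝ ≃o ℝ where
  toFun x := x + max 0 (min (x - t) 1)
  invFun y := y - max 0 (min ((y - t) / 2) 1)
  left_inv x := by
    simp only
    rcases le_total x t with h | h
    · rw [min_eq_left (by linarith), max_eq_left (by linarith), add_zero,
        min_eq_left (by linarith), max_eq_left (by linarith), sub_zero]
    · rcases le_total x (t + 1) with h' | h'
      · rw [min_eq_left (a := x - t) (by linarith), max_eq_right (b := x - t) (by linarith),
          min_eq_left (by linarith), max_eq_right (by linarith)]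
        ring
      · rw [min_eq_right (a := x - t) (by linarith), max_eq_right (b := (1 : ℝ)) (by linarith),
          min_eq_right (by linarith), max_eq_right (by linarith)]
        ring
  right_inv y := by
    simp only
    rcases le_total y t with h | h
    · rw [min_eq_left (a := (y - t) / 2) (by linarith),
        max_eq_left (b := (y - t) / 2) (by linarith), sub_zero,
        min_eq_left (by linarith), max_eq_left (by linarith), add_zero]
    · rcases le_total y (t + 2) with h' | h'
      · rw [min_eq_left (a := (y - t) / 2) (by linarith),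
          max_eq_right (b := (y - t) / 2) (by linarith),
          min_eq_left (by linarith), max_eq_right (by linarith)]
        ring
      · rw [min_eq_right (a := (y - t) / 2) (by linarith),
          max_eq_right (b := (1 : ℝ)) (by linarith),
          min_eq_right (by linarith), max_eq_right (by linarith)]
        ring
  map_rel_iff' := by
    intro x y
    simp only [Equiv.coe_fn_mk]
    constructor
    · intro h
      by_contra hcon
      push Not at hcon
      have h1 : min (y - t) 1 ≤ min (x - t) 1 := min_le_min_right _ (by linarith)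
      have h2 : max 0 (min (y - t) 1) ≤ max 0 (min (x - t) 1) := max_le_max_left _ h1
      linarith
    · intro h
      have h1 : min (x - t) 1 ≤ min (y - t) 1 := min_le_min_right _ (by linarith)
      have h2 : max 0 (min (x - t) 1) ≤ max 0 (min (y - t) 1) := max_le_max_left _ h1
      linarith

theorem sh_apply (t x : ℝ) : sh t x = x + max 0 (min (x - t) 1) := rfl

theorem sh_of_le {t x : ℝ} (h : x ≤ t) : sh t x = x := by
  rw [sh_apply, min_eq_left (by linarith), max_eq_left (by linarith), add_zero]

theorem sh_mid {t x : ℝ} (h : t ≤ x) (h' : x ≤ t + 1) : sh t x = x + (x - t) := by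
  rw [sh_apply, min_eq_left (by linarith), max_eq_right (by linarith)]

theorem sh_of_ge {t x : ℝ} (h : t + 1 ≤ x) : sh t x = x + 1 := by
  rw [sh_apply, min_eq_right (by linarith), max_eq_right (by linarith)]

theorem sh_mem (t : ℝ) (ht : 0 ≤ t) : sh t ∈ LL := by
  refine ⟨fun x hx => sh_of_le (hx.trans ht), fun x => ?_⟩
  rcases lt_or_ge x t with h | h
  · refine ⟨1, one_pos, t - x, by linarith, fun y hy hy' => ?_⟩
    rw [sh_of_le (by linarith), sh_of_le h.le]
    ring
  · rcases lt_or_ge x (t + 1) with h' | h'
    · refine ⟨2, two_pos, t + 1 - x, by linarith, fun y hy hy' => ?_⟩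
      rw [sh_mid (h.trans hy) (by linarith), sh_mid h h'.le]
      ring
    · refine ⟨1, one_pos, 1, one_pos, fun y hy hy' => ?_⟩
      rw [sh_of_ge (h'.trans hy), sh_of_ge h']
      ring

/-- The basic relation of Thompson's group. -/
theorem sh_conj {s t : ℝ} (h : s + 1 ≤ t) : sh s * sh t * (sh s)⁻¹ = sh (t + 1) := by
  rw [mul_inv_eq_iff_eq_mul]
  apply RelIso.ext
  intro x
  show sh s (sh t x) = sh (t + 1) (sh s x)
  rcases le_total x t with hx | hx
  · rw [sh_of_le hx]
    rcases le_total x (s + 1) with hx' | hx'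
    · symm
      apply sh_of_le
      have : sh s x ≤ sh s (s + 1) := (sh s).monotone hx'
      rw [sh_of_ge le_rfl] at this
      linarith
    · rw [sh_of_ge hx', sh_of_le (by linarith)]
  · rw [sh_of_ge (t := s) (x := x) (by linarith)]
    have h1 : x ≤ sh t x := by
      rw [sh_apply]
      have := le_max_left 0 (min (x - t) 1)
      linarith
    rw [sh_of_ge (t := s) (by linarith), sh_apply, sh_apply]
    have : x + 1 - (t + 1) = x - t := by ring
    rw [this]
    ring

theorem sh_ne {s t : ℝ} (h : s ≠ t) : sh s ≠ sh t := by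
  wlog hlt : s < t generalizing s t
  · exact (this h.symm (lt_of_le_of_ne (not_lt.1 hlt) h.symm)).symm
  intro he
  have h1 : sh s t = sh t t := by rw [he]
  rw [sh_of_le (t := t) le_rfl, sh_apply] at h1
  have h2 : 0 < min (t - s) 1 := lt_min (by linarith) one_pos
  have h3 : min (t - s) 1 ≤ max 0 (min (t - s) 1) := le_max_right _ _
  linarith

end Pool.Agent.H117R3
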